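import Pool.Agent.P.MP_c2d640_lc.G7

set_option autoImplicit false

namespace Pool.Agent.Results.MP_c2d640_lc.Deterministic

open Pool.Agent.P.MP_c2d640_lc

/-- For every finite field `F` (with any bit encoding of its elements) and every minor-closed
class of `F`-represented matroids that omits the row space of some matrix over the prime subfield,
a deterministic polynomial-time algorithm computes the girth of the members of the class from any
generator matrix (infinite girth is reported as `0`). -/
theorem result (F : Type) [Field F] [Finite F] [N487b59b3 F]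
    (𝓜 : (n : ℕ) → Set (Submodule F (Fin n → F))) (hM : MinorClosed 𝓜)
    (hP : ∃ (a b : ℕ) (P : Matrix (Fin a) (Fin b) F), (∀ i j, P i j ∈ (⊥ : Subfield F)) ∧
      rowSpace P ∉ 𝓜 b) :
    ∃ f : List (List F) → ℕ, N68a2faeb.IsPolyTime f ∧
      ∀ (m n : ℕ) (A : Matrix (Fin m) (Fin n) F), rowSpace A ∈ 𝓜 n →
        f (columns A) = (girth A).toNat :=
  main_det F 𝓜 hM hP

end Pool.Agent.Results.MP_c2d640_lc.Deterministic
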