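import Pool.Agent.P.MP_c2d640_lc.G2

set_option autoImplicit false

namespace Pool.Agent.Results.MP_c2d640_lc.FewShortWords

open Finset Pool.Agent.P.MP_c2d640_lc
open scoped Classical

/-- In a minor-closed class of `F`-represented matroids that omits the row space of some matrix
over the prime subfield, the number of linear dependencies with at most `α g` terms is at most
`(n + 1) ^ (C α ^ c)` as soon as every non-zero dependency has at least `g` terms. -/
theorem result (F : Type) [Field F] [Finite F]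
    (𝓜 : (n : ℕ) → Set (Submodule F (Fin n → F))) (hM : MinorClosed 𝓜)
    (hP : ∃ (a b : ℕ) (P : Matrix (Fin a) (Fin b) F), (∀ i j, P i j ∈ (⊥ : Subfield F)) ∧
      rowSpace P ∉ 𝓜 b) :
    ∃ C c : ℕ, ∀ (m n : ℕ) (A : Matrix (Fin m) (Fin n) F), rowSpace A ∈ 𝓜 n → ∀ g α : ℕ, 1 ≤ α →
      (∀ y : Fin n → F, A.mulVec y = 0 → y ≠ 0 → g ≤ (Function.support y).ncard) →
      {y : Fin n → F | A.mulVec y = 0 ∧ (Function.support y).ncard ≤ α * g}.ncard ≤
        (n + 1) ^ (C * α ^ c) := by
  have := Fintype.ofFinite F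
  obtain ⟨s₁, s₂, hc⟩ := ns_of_class F 𝓜 hM hP
  obtain ⟨C, c, htau⟩ := exists_tau F (s₁ + s₂)
  refine ⟨Fintype.card F ^ 2 * C, c, fun m n A hA g α hα hg => ?_⟩
  have e1 : ∀ y : Fin n → F, ev F A.col y = A.mulVec y := fun y => by
    rw [ev_apply, Matrix.mulVec_eq_sum]
    exact sum_congr rfl fun e _ => by ext i; simp [mul_comm]
  have e2 : ∀ y : Fin n → F, (Function.support y).ncard = #(supp y) := fun y => by
    rw [← Set.ncard_coe_finset]
    congr 1
    ext e
    simp [mem_supp]
  have hT : Tame F A.col univ (s₁ + s₂) := by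
    have := tame_of_NS (w := A.col) (O := ∅) (hc m n A hA).1 (hc m n A hA).2 fun y => by simp
    rwa [compl_empty] at this
  have hG : Gir F A.col univ g := fun y _ y1 y2 => e2 y ▸ hg y (e1 y ▸ y1) y2
  have e3 : {y : Fin n → F | A.mulVec y = 0 ∧ (Function.support y).ncard ≤ α * g} =
      ↑(words F A.col univ (α * g)) := by
    ext y
    rw [mem_coe, mem_words, e1, ← e2]
    exact ⟨fun h => ⟨fun e he => absurd (mem_univ e) he, h⟩, fun h => h.2⟩
  rw [e3, Set.ncard_coe_finset]
  refine (natarajan _ (C * α ^ c) fun T hT' => htau A.col univ T g α hα hT hG hT').trans ?_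
  rw [Fintype.card_fin, mul_assoc, pow_mul (n + 1)]
  refine Nat.pow_le_pow_left ?_ _
  have := one_add_mul_le_pow (a := (n : ℤ)) (by omega) (Fintype.card F ^ 2)
  rw [mul_comm n, add_comm n 1]
  exact_mod_cast this

end Pool.Agent.Results.MP_c2d640_lc.FewShortWords
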